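import Mathlib
import Pool.Agent.Helper71.FC.Bad

/-!
# Minimal relations modulo given elements
-/

set_option autoImplicit false

namespace Pool.Agent.Helper71.QR

open Finset MvPolynomial Module
open Pool.Agent.Helper71.FC (CW Rel cmb cmb_cmb li_mul li_rows line)

variable {k E : Type} [Field k] [Field E] [Algebra k E]

/-- `y` is linearly independent modulo `1` and the elements `z`, and it satisfies together with `z` a
relation, but fewer independent combinations never do -/
def BadZ (W : Submodule k E) (D : ℕ) {v : ℕ} (z : Fin v → E) (m : ℕ) (y : Fin m → E) : Prop :=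
  LinearIndependent k (Fin.cons 1 (Fin.append z y) : Fin (v + m + 1) → E) ∧
    Rel W D (Fin.append z y) ∧
    ∀ m' < m, ∀ u : Fin m' → Fin m → k, LinearIndependent k u →
      ¬ Rel W D (Fin.append z (cmb u y))

/-- translation by combinations of `1` and `z` -/
def tr {v m : ℕ} (z : Fin v → E) (t : Fin m → k) (c : Fin m → Fin v → k) (y : Fin m → E) :
    Fin m → E :=
  fun i => algebraMap k E (t i) + ∑ a, algebraMap k E (c i a) * z a + y i

theorem sum_append {v m : ℕ} (z : Fin v → E) (y : Fin m → E) (g : Fin (v + m) → k) :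
    ∑ i, algebraMap k E (g i) * Fin.append z y i =
      ∑ a, algebraMap k E (g (Fin.castAdd m a)) * z a +
        ∑ i, algebraMap k E (g (Fin.natAdd v i)) * y i := by
  rw [Fin.sum_univ_add]
  congr 1
  · exact Finset.sum_congr rfl fun a _ => by rw [Fin.append_left]
  · exact Finset.sum_congr rfl fun a _ => by rw [Fin.append_right]

/-- the independence in coordinates -/
theorem li_append {v m : ℕ} {z : Fin v → E} {y : Fin m → E} :
    LinearIndependent k (Fin.cons 1 (Fin.append z y) : Fin (v + m + 1) → E) ↔
      ∀ (t : k) (c : Fin v → k) (g : Fin m → k), algebraMap k E t +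
        ∑ a, algebraMap k E (c a) * z a + ∑ i, algebraMap k E (g i) * y i = 0 →
        t = 0 ∧ c = 0 ∧ g = 0 := by
  rw [Fintype.linearIndependent_iff]
  constructor
  · intro h t c g h0
    have h1 := h (Fin.cons t (Fin.append c g)) (by
      rw [Fin.sum_univ_succ]
      simp only [Fin.cons_zero, Fin.cons_succ, Algebra.smul_def, mul_one]
      rw [sum_append, ← h0, add_assoc]
      simp only [Fin.append_left, Fin.append_right])
    refine ⟨?_, ?_, ?_⟩
    · exact h1 0
    · funext a
      have := h1 (Fin.castAdd m a).succ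
      rwa [Fin.cons_succ, Fin.append_left] at this
    · funext i
      have := h1 (Fin.natAdd v i).succ
      rwa [Fin.cons_succ, Fin.append_right] at this
  · intro h g hg
    rw [Fin.sum_univ_succ] at hg
    simp only [Fin.cons_zero, Fin.cons_succ, Algebra.smul_def, mul_one] at hg
    rw [sum_append z y (fun i => g i.succ), ← add_assoc] at hg
    obtain ⟨h1, h2, h3⟩ := h _ _ _ hg
    intro i
    refine Fin.cases h1 (fun i => ?_) i
    refine Fin.addCases (fun a => ?_) (fun j => ?_) i
    · exact congrFun h2 a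
    · exact congrFun h3 j

/-- independence passes to combinations -/
theorem li_cmbZ {v m m' : ℕ} {z : Fin v → E} {y : Fin m → E}
    (hy : LinearIndependent k (Fin.cons 1 (Fin.append z y) : Fin (v + m + 1) → E))
    (u : Fin m' → Fin m → k) (hu : LinearIndependent k u) (t : Fin m' → k)
    (c : Fin m' → Fin v → k) :
    LinearIndependent k (Fin.cons 1 (Fin.append z (tr z t c (cmb u y))) :
      Fin (v + m' + 1) → E) := by
  rw [li_append] at hy ⊢
  intro t₀ c₀ g h0
  obtain ⟨h1, h2, h3⟩ := hy (t₀ + ∑ j, g j * t j) (fun a => c₀ a + ∑ j, g j * c j a)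
    (fun i => ∑ j, g j * u j i) (by
      rw [← h0]
      simp only [tr, cmb, map_add, map_sum, map_mul, add_mul, mul_add, Finset.sum_add_distrib,
        Finset.mul_sum, Finset.sum_mul]
      have e1 : ∑ a, ∑ j, algebraMap k E (g j) * algebraMap k E (c j a) * z a =
          ∑ j, ∑ a, algebraMap k E (g j) * (algebraMap k E (c j a) * z a) := by
        rw [Finset.sum_comm]
        exact Finset.sum_congr rfl fun j _ => Finset.sum_congr rfl fun a _ => by ring
      have e2 : ∑ i, ∑ j, algebraMap k E (g j) * algebraMap k E (u j i) * y i =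
          ∑ j, ∑ i, algebraMap k E (g j) * (algebraMap k E (u j i) * y i) := by
        rw [Finset.sum_comm]
        exact Finset.sum_congr rfl fun j _ => Finset.sum_congr rfl fun a _ => by ring
      rw [e1, e2]
      ring)
  have h4 : g = 0 := by
    rw [Fintype.linearIndependent_iff] at hu
    funext j
    refine hu g ?_ j
    funext i
    have h5 := congrFun h3 i
    simp only [Finset.sum_apply, Pi.smul_apply, smul_eq_mul, Pi.zero_apply] at h5 ⊢
    exact h5
  subst h4
  refine ⟨?_, ?_, rfl⟩
  · simpa using h1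
  · simpa using h2

/-- affine maps which fix `z` -/
theorem rel_act {W : Submodule k E} {D v m : ℕ} {z : Fin v → E} {y : Fin m → E}
    (h0 : Rel W D (Fin.append z y)) (h : Matrix (Fin m) (Fin m) k) (hdet : h.det ≠ 0)
    (t : Fin m → k) (c : Fin m → Fin v → k) :
    Rel W D (Fin.append z (tr z t c (cmb (fun i j => h i j) y))) := by
  classical
  have hu : IsUnit h.det := isUnit_iff_ne_zero.2 hdet
  let H : Matrix (Fin v ⊕ Fin m) (Fin v ⊕ Fin m) k := Matrix.fromBlocks 1 0 (Matrix.of c) h
  let G : Matrix (Fin v ⊕ Fin m) (Fin v ⊕ Fin m) k :=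
    Matrix.fromBlocks 1 0 (-(h⁻¹ * Matrix.of c)) h⁻¹
  have hGH : G * H = 1 := by
    rw [Matrix.fromBlocks_multiply, ← Matrix.fromBlocks_one]
    congr 1
    · simp
    · simp
    · simp
    · simp [Matrix.nonsing_inv_mul h hu]
  have h1 := h0.affine (H.submatrix finSumFinEquiv.symm finSumFinEquiv.symm)
    (G.submatrix finSumFinEquiv.symm finSumFinEquiv.symm) (by
      rw [Matrix.submatrix_mul_equiv, hGH, Matrix.submatrix_one_equiv])
    (Fin.append (fun _ => 0) t)
  convert h1 using 1
  funext i
  rw [sum_append]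
  refine Fin.addCases (fun a => ?_) (fun j => ?_) i
  · rw [Fin.append_left, Fin.append_left, map_zero, zero_add]
    simp only [Matrix.submatrix_apply, finSumFinEquiv_symm_apply_castAdd,
      finSumFinEquiv_symm_apply_natAdd, H, Matrix.fromBlocks_apply₁₁, Matrix.fromBlocks_apply₁₂,
      Matrix.zero_apply, map_zero, zero_mul, Finset.sum_const_zero, add_zero]
    rw [Finset.sum_eq_single a]
    · rw [Matrix.one_apply_eq, map_one, one_mul]
    · intro b _ hb
      rw [Matrix.one_apply_ne (Ne.symm hb), map_zero, zero_mul]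
    · intro h; exact absurd (Finset.mem_univ _) h
  · rw [Fin.append_right, Fin.append_right]
    simp only [Matrix.submatrix_apply, finSumFinEquiv_symm_apply_castAdd,
      finSumFinEquiv_symm_apply_natAdd, H, Matrix.fromBlocks_apply₂₁, Matrix.fromBlocks_apply₂₂,
      Matrix.of_apply, tr, cmb]
    ring

theorem cmb_one {m : ℕ} (y : Fin m → E) :
    cmb (fun i j => (1 : Matrix (Fin m) (Fin m) k) i j) y = y := by
  classical
  funext i
  simp only [cmb]
  rw [Finset.sum_eq_single i]
  · rw [Matrix.one_apply_eq, map_one, one_mul]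
  · intro j _ hj
    rw [Matrix.one_apply_ne (Ne.symm hj), map_zero, zero_mul]
  · intro h; exact absurd (Finset.mem_univ i) h

/-- translations can be removed -/
theorem rel_tr {W : Submodule k E} {D v m : ℕ} {z : Fin v → E} {y : Fin m → E} {t : Fin m → k}
    {c : Fin m → Fin v → k} (h0 : Rel W D (Fin.append z (tr z t c y))) :
    Rel W D (Fin.append z y) := by
  have h1 := rel_act h0 (1 : Matrix (Fin m) (Fin m) k) (by simp) (fun i => -t i)
    (fun i a => -c i a)
  rw [cmb_one] at h1
  convert h1 using 2
  funext i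
  simp only [tr, map_neg, neg_mul, Finset.sum_neg_distrib]
  ring

theorem cmb_tr {v m m' : ℕ} {z : Fin v → E} {y : Fin m → E} (t : Fin m → k)
    (c : Fin m → Fin v → k) (u : Fin m' → Fin m → k) :
    cmb u (tr z t c y) = tr z (fun j => ∑ i, u j i * t i) (fun j a => ∑ i, u j i * c i a)
      (cmb u y) := by
  funext j
  simp only [cmb, tr, mul_add, Finset.sum_add_distrib, map_sum, map_mul, Finset.mul_sum,
    Finset.sum_mul]
  congr 2
  rw [Finset.sum_comm]
  exact Finset.sum_congr rfl fun i _ => Finset.sum_congr rfl fun a _ => by ring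

/-- affine maps preserve minimal relations -/
theorem BadZ.act {W : Submodule k E} {D v m : ℕ} {z : Fin v → E} {y : Fin m → E}
    (hy : BadZ W D z m y) (h : Matrix (Fin m) (Fin m) k) (hdet : h.det ≠ 0) (t : Fin m → k)
    (c : Fin m → Fin v → k) : BadZ W D z m (tr z t c (cmb (fun i j => h i j) y)) := by
  refine ⟨li_cmbZ hy.1 _ (li_rows h hdet) t c, rel_act hy.2.1 h hdet t c, ?_⟩
  intro m' hm' u hu hrel
  refine hy.2.2 m' hm' _ (li_mul (fun i j => h i j) u (li_rows h hdet) hu) ?_
  rw [cmb_tr] at hrel
  have h1 := rel_tr hrel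
  rwa [cmb_cmb] at h1

theorem succAbove_castAdd {v m : ℕ} (i : Fin (m + 1)) (a : Fin v) :
    (Fin.natAdd v i : Fin (v + m + 1)).succAbove (Fin.castAdd m a) = Fin.castAdd (m + 1) a := by
  have h : (Fin.castAdd m a).castSucc < (Fin.natAdd v i : Fin (v + m + 1)) := by
    rw [Fin.lt_def]
    simp only [Fin.val_castSucc, Fin.val_castAdd, Fin.val_natAdd]
    omega
  rw [Fin.succAbove_of_castSucc_lt _ _ h]
  rfl

theorem succAbove_natAdd {v m : ℕ} (i : Fin (m + 1)) (j : Fin m) :
    (Fin.natAdd v i : Fin (v + m + 1)).succAbove (Fin.natAdd v j) = Fin.natAdd v (i.succAbove j) := by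
  apply Fin.ext
  simp only [Fin.succAbove, Fin.lt_def, Fin.val_castSucc, Fin.val_natAdd]
  by_cases h : (j : ℕ) < i
  · rw [if_pos (by omega), if_pos h]
    simp
  · rw [if_neg (by omega), if_neg h]
    simp
    omega

/-- no lines -/
theorem BadZ.no_line [Infinite E] {W : Submodule k E} {D v m : ℕ} {z : Fin v → E} {y : Fin m → E}
    (hy : BadZ W D z m y) {P : MvPolynomial (Fin (v + m)) E} (hP0 : P ≠ 0) (hP : CW W D P)
    (w : Fin m → k) (hw : w ≠ 0)
    (h : ∀ s : E, eval (Fin.append z (fun i => y i + s * algebraMap k E (w i))) P = 0) : False := by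
  classical
  obtain ⟨i₀, hi₀⟩ : ∃ i, w i ≠ 0 := by
    by_contra hcon
    push Not at hcon
    exact hw (funext hcon)
  obtain ⟨m', rfl⟩ : ∃ m', m = m' + 1 := ⟨m - 1, by have := i₀.2; omega⟩
  let w0 : Fin (v + (m' + 1)) → k := Fin.append (fun _ : Fin v => (0 : k)) w
  let w' : Fin (v + m' + 1) → k := w0
  have hw'1 : ∀ a : Fin v, w' (Fin.castAdd (m' + 1) a) = 0 := fun a =>
    Fin.append_left (fun _ : Fin v => (0 : k)) w a
  have hw'2 : ∀ i : Fin (m' + 1), w' (Fin.natAdd v i) = w i := fun i =>
    Fin.append_right (fun _ : Fin v => (0 : k)) w i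
  let Y : Fin (v + (m' + 1)) → E := Fin.append z y
  have hY1 : ∀ a : Fin v, Y (Fin.castAdd (m' + 1) a) = z a := fun a => Fin.append_left z y a
  have hY2 : ∀ i : Fin (m' + 1), Y (Fin.natAdd v i) = y i := fun i => Fin.append_right z y i
  have h1 := line (m := v + m') hP0 hP Y w' (Fin.natAdd v i₀)
    (by rw [hw'2]; exact hi₀) (by
      intro s
      rw [← h s]
      congr 2
      funext i
      refine Fin.addCases (m := v) (n := m' + 1) (fun a => ?_) (fun j => ?_) i
      · rw [hw'1, map_zero, mul_zero, add_zero, Fin.append_left, hY1]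
      · rw [hw'2, Fin.append_right, hY2])
  set u : Fin m' → Fin (m' + 1) → k := fun j i =>
    (if i = i₀.succAbove j then 1 else 0) - (if i = i₀ then w (i₀.succAbove j) / w i₀ else 0) with hu
  refine hy.2.2 m' (Nat.lt_succ_self _) u ?_ ?_
  · rw [Fintype.linearIndependent_iff]
    intro c hc j
    have h2 := congrFun hc (i₀.succAbove j)
    simp only [Finset.sum_apply, Pi.smul_apply, smul_eq_mul, Pi.zero_apply, hu,
      Fin.succAbove_ne, if_false, sub_zero, Fin.succAbove_right_inj] at h2
    simpa using h2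
  · convert h1 using 1
    funext j
    refine Fin.addCases (fun a => ?_) (fun j => ?_) j
    · rw [succAbove_castAdd, hw'1, zero_div, map_zero, zero_mul, sub_zero, Fin.append_left, hY1]
    · rw [succAbove_natAdd, hw'2, hw'2, Fin.append_right, hY2, hY2]
      simp only [cmb, hu, map_sub, sub_mul, Finset.sum_sub_distrib]
      congr 1
      · rw [Finset.sum_eq_single (i₀.succAbove j)]
        · rw [if_pos rfl, map_one, one_mul]
        · intro i _ hi
          rw [if_neg hi, map_zero, zero_mul]
        · intro h; exact absurd (Finset.mem_univ _) h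
      · rw [Finset.sum_eq_single i₀]
        · rw [if_pos rfl]
        · intro i _ hi
          rw [if_neg hi, map_zero, zero_mul]
        · intro h; exact absurd (Finset.mem_univ _) h

/-- there are minimal relations -/
theorem exists_badZ {W : Submodule k E} {D v m : ℕ} {z : Fin v → E} {y : Fin m → E}
    (hy : LinearIndependent k (Fin.cons 1 (Fin.append z y) : Fin (v + m + 1) → E))
    (hrel : Rel W D (Fin.append z y)) :
    ∃ m' ≤ m, ∃ u : Fin m' → Fin m → k, BadZ W D z m' (cmb u y) := by
  classical
  have hex : ∃ m', ∃ u : Fin m' → Fin m → k, LinearIndependent k u ∧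
      Rel W D (Fin.append z (cmb u y)) := by
    refine ⟨m, fun i j => (1 : Matrix (Fin m) (Fin m) k) i j, li_rows _ (by simp), ?_⟩
    rw [cmb_one]
    exact hrel
  obtain ⟨u, hu, hrel'⟩ := Nat.find_spec hex
  have hmin := fun m' (hm' : m' < Nat.find hex) => Nat.find_min hex hm'
  refine ⟨Nat.find hex, ?_, u, ?_, hrel', ?_⟩
  · have := hu.fintype_card_le_finrank
    simpa using this
  · have h1 := li_cmbZ hy u hu 0 0
    have h2 : tr z (0 : Fin (Nat.find hex) → k) 0 (cmb u y) = cmb u y := by
      funext i
      simp [tr]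
    rwa [h2] at h1
  · intro m' hm' u' hu' h
    refine hmin m' hm' ⟨_, li_mul u u' hu hu', ?_⟩
    rw [← cmb_cmb]
    exact h

end Pool.Agent.Helper71.QR
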