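import Mathlib
import Pool.Graph.R_seed8.Y787.AS.Fam
import Pool.Graph.R_seed8.Y787.AS.Main
import Pool.Graph.R_seed8.Y787.FE.Ops

/-!
# Families of varieties: the dimension of the set of points and parameters
-/

set_option autoImplicit false

namespace Pool.Agent.Helper71.QR

open MvPolynomial Module Filter
open Pool.Agent.W254.PA (Hyp)
open Pool.Agent.Y787.AS

variable {k Cc : Type} [Field k] [Field Cc] [Algebra k Cc] {ι : Type} (𝒰 : Ultrafilter ι)

/-- **The theorem for germs.** -/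
theorem germ_main2 [CharZero k] [CharZero Cc] {Lt : Submodule k Cc} (hL : Hyp Lt)
    (hw : Wts' k Cc) {m N q τ r : ℕ} (l : Fin N → Cc) (hl : ∀ j, l j ∈ Lt)
    (hli : LinearIndependent k l) (β : ι → Fin m → Fin N → k) (t : ι → Fin τ → k)
    (F : Fin r → MvPolynomial (Fin m ⊕ Fin τ) Cc)
    (hF : ∀ x s, eval (Sum.elim (fun i => ∑ j, algebraMap k Cc (β x i j) * l j)
      (fun a => algebraMap k Cc (t x a))) (F s) = 0)
    (φ : Fin q → (((Fin m × Fin N) ⊕ Fin τ → k) →ₗ[k] k))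
    (hgen : ∀ P : MvPolynomial (Fin q) k, P ≠ 0 →
      ∀ᶠ x in (𝒰 : Filter ι),
        eval (fun i => φ i (Sum.elim (fun p => β x p.1 p.2) (t x))) P ≠ 0) :
    ∃ ρ', q ≤ τ + (ρ' * N + (m - ρ') * (m - 1)) ∧ ∀ᶠ x in (𝒰 : Filter ι),
      ∃ R : Submodule k (Fin m → k), finrank k R = ρ' ∧ ∀ s, ∀ c ∈ RE Cc R,
        eval (Sum.elim (fun i => ∑ j, algebraMap k Cc (β x i j) * l j + c i)
          (fun a => algebraMap k Cc (t x a))) (F s) = 0 := by
  classical
  letI := algG k Cc 𝒰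
  have hch2 : CharZero (GE 𝒰 Cc) :=
    charZero_of_injective_ringHom ((ge 𝒰 Cc).comp (Pi.constRingHom ι Cc)).injective
  choose d D hD1 hD2 hd3 hd4 using germ_der (Cc := Cc) 𝒰
    (fun x i => φ i (Sum.elim (fun p => β x p.1 p.2) (t x))) hgen
  have hg : ∀ κ a, D κ (algebraMap (GE 𝒰 k) (GE 𝒰 Cc) a) =
      algebraMap (GE 𝒰 k) (GE 𝒰 Cc) ((fun κ => ⇑(d κ)) κ a) := hD1
  -- the derivations which kill the parameters
  let Θ : (Fin q → GE 𝒰 k) →ₗ[GE 𝒰 k] (Fin τ → GE 𝒰 k) :=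
    { toFun := fun δ a => gd (fun κ => ⇑(d κ)) δ (ge 𝒰 k (fun x => t x a))
      map_add' := fun δ δ' => by
        funext a
        exact gd_add _ δ δ' _
      map_smul' := fun p δ => by
        funext a
        exact gd_smul _ p δ _ }
  have hΘ : q ≤ τ + finrank (GE 𝒰 k) (LinearMap.ker Θ) := by
    have h1 := LinearMap.finrank_range_add_finrank_ker Θ
    rw [finrank_fintype_fun_eq_card, Fintype.card_fin] at h1
    have h2 : finrank (GE 𝒰 k) (LinearMap.range Θ) ≤ τ := by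
      have := Submodule.finrank_le (LinearMap.range Θ)
      rwa [finrank_fintype_fun_eq_card, Fintype.card_fin] at this
    omega
  have hl2 : ∀ j, ge 𝒰 Cc (fun _ => l j) ∈ LG 𝒰 Lt := fun j =>
    ⟨fun _ => l j, rfl, Eventually.of_forall fun _ => hl j⟩
  have hli2 : LinearIndependent (GE 𝒰 k) (fun j => ge 𝒰 Cc (fun _ => l j)) := by
    rw [Fintype.linearIndependent_iff]
    intro c hc
    choose c' hc' using fun j => ge_surj 𝒰 k (c j)
    have h1 : ∑ j, geMap 𝒰 (algebraMap k Cc) (c j) * ge 𝒰 Cc (fun _ => l j) = 0 := by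
      rw [← hc]
      refine Finset.sum_congr rfl fun j _ => ?_
      rw [Algebra.smul_def]
      rfl
    have h2 : ∑ j, geMap 𝒰 (algebraMap k Cc) (c j) * ge 𝒰 Cc (fun _ => l j) =
        ge 𝒰 Cc (fun x => ∑ j, algebraMap k Cc (c' j x) * l j) := by
      simp only [← hc', geMap_ge, ← map_mul, ← map_sum]
      congr 1
      funext x
      rw [Finset.sum_apply]
      rfl
    rw [h2, ge_eq_zero] at h1
    intro j
    rw [← hc', ge_eq_zero]
    refine h1.mono fun x hx => ?_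
    refine (Fintype.linearIndependent_iff.1 hli) (fun j => c' j x) ?_ j
    rw [← hx]
    exact Finset.sum_congr rfl fun j _ => Algebra.smul_def _ _
  -- the point
  have hy : ∀ i, ∑ j, algebraMap (GE 𝒰 k) (GE 𝒰 Cc) (ge 𝒰 k (fun x => β x i j)) *
      ge 𝒰 Cc (fun _ => l j) = ge 𝒰 Cc (fun x => ∑ j, algebraMap k Cc (β x i j) * l j) := by
    intro i
    have h1 : ∀ j, algebraMap (GE 𝒰 k) (GE 𝒰 Cc) (ge 𝒰 k (fun x => β x i j)) *
        ge 𝒰 Cc (fun _ => l j) = ge 𝒰 Cc (fun x => algebraMap k Cc (β x i j) * l j) := by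
      intro j
      change geMap 𝒰 (algebraMap k Cc) _ * _ = _
      rw [geMap_ge, ← map_mul]
      rfl
    rw [Finset.sum_congr rfl fun j _ => h1 j, ← map_sum]
    congr 1
    funext x
    rw [Finset.sum_apply]
  have hinj : ∀ δ ∈ LinearMap.ker Θ, (∀ i j, gd (fun κ => ⇑(d κ)) δ
      (ge 𝒰 k (fun x => β x i j)) = 0) → δ = 0 := by
    intro δ hδΘ hδ
    have hδt : ∀ a, gd (fun κ => ⇑(d κ)) δ (ge 𝒰 k (fun x => t x a)) = 0 := fun a =>
      congrFun (LinearMap.mem_ker.1 hδΘ) a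
    funext κ
    have h1 : ge 𝒰 k (fun x => φ κ (Sum.elim (fun p => β x p.1 p.2) (t x))) =
        ∑ p : (Fin m × Fin N) ⊕ Fin τ, ge 𝒰 k (fun _ => φ κ (Pi.single p 1)) *
          ge 𝒰 k (fun x => (Sum.elim (fun p => β x p.1 p.2) (t x) :
            (Fin m × Fin N) ⊕ Fin τ → k) p) := by
      simp only [← map_mul, ← map_sum]
      congr 1
      funext x
      rw [Finset.sum_apply]
      conv_lhs => rw [pi_eq_sum_univ' (Sum.elim (fun p => β x p.1 p.2) (t x) :
            (Fin m × Fin N) ⊕ Fin τ → k), map_sum]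
      refine Finset.sum_congr rfl fun p _ => ?_
      rw [map_smul, smul_eq_mul]
      change _ = φ κ (Pi.single p 1) * (Sum.elim (fun p => β x p.1 p.2) (t x) :
            (Fin m × Fin N) ⊕ Fin τ → k) p
      rw [mul_comm]
    have h2 : gd (fun κ => ⇑(d κ)) δ
        (ge 𝒰 k (fun x => φ κ (Sum.elim (fun p => β x p.1 p.2) (t x)))) = 0 := by
      rw [h1, gd_sum_mul D (fun κ => ⇑(d κ)) hg]
      refine Finset.sum_eq_zero fun p _ => ?_
      have h4 : gd (fun κ => ⇑(d κ)) δ (ge 𝒰 k (fun x =>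
          (Sum.elim (fun p => β x p.1 p.2) (t x) : (Fin m × Fin N) ⊕ Fin τ → k) p)) = 0 := by
        rcases p with p | a
        · exact hδ p.1 p.2
        · exact hδt a
      rw [h4, mul_zero, add_zero]
      have h3 : gd (fun κ => ⇑(d κ)) δ (ge 𝒰 k (fun _ => φ κ (Pi.single p 1))) = 0 := by
        rw [gd]
        refine Finset.sum_eq_zero fun κ' _ => ?_
        rw [hd3, mul_zero]
      rw [h3, zero_mul]
    rw [gd, Finset.sum_eq_single κ] at h2
    · rw [hd4, if_pos rfl, mul_one] at h2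
      exact h2
    · intro κ' _ hκ'
      rw [hd4, if_neg (Ne.symm hκ'), mul_zero]
    · intro h; exact absurd (Finset.mem_univ _) h
  obtain ⟨R, hR1, hR2⟩ := abs_main (hyp_germ 𝒰 hL) (wts_of (wts_germ 𝒰 hw))
    (fun j => ge 𝒰 Cc (fun _ => l j)) hl2 hli2 (fun i j => ge 𝒰 k (fun x => β x i j)) D
    (fun κ => ⇑(d κ)) hg (fun κ j => hD2 κ (l j)) (LinearMap.ker Θ) hinj
    (Set.range fun s => polyE 𝒰 t (F s)) (by
      rintro _ ⟨s, rfl⟩
      simp only [hy]
      rw [polyE_eval, ge_eq_zero]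
      exact Eventually.of_forall fun x => hF x s) (by
      rintro δ hδ _ ⟨s, rfl⟩
      refine polyE_coefD 𝒰 t _ (fun z => ?_) (fun a => ?_) _
      · rw [Dd_apply]
        refine Finset.sum_eq_zero fun κ _ => ?_
        rw [hD2, mul_zero]
      · have h1 := Dd_alg D (fun κ => ⇑(d κ)) hg δ (ge 𝒰 k (fun x => t x a))
        have h2 : gd (fun κ => ⇑(d κ)) δ (ge 𝒰 k (fun x => t x a)) = 0 :=
          congrFun (LinearMap.mem_ker.1 hδ) a
        rw [h2, map_zero] at h1
        exact h1)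
  refine ⟨finrank (GE 𝒰 k) R, by omega, ?_⟩
  -- representatives of a basis
  let cB := finBasis (GE 𝒰 k) R
  choose C hC using fun b i => ge_surj 𝒰 k ((cB b : Fin m → GE 𝒰 k) i)
  have e1 : ∀ᶠ x in (𝒰 : Filter ι), ∀ c : Fin (finrank (GE 𝒰 k) R) → k,
      (∀ i, ∑ b, algebraMap k k (c b) * C b i x = 0) → c = 0 := by
    refine ev_li 𝒰 (fun b (i : Fin m) => C b i) fun c hc => ?_
    funext b
    refine (Fintype.linearIndependent_iff.1 cB.linearIndependent) c ?_ b
    apply Subtype.ext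
    funext i
    simp only [Submodule.coe_sum, Submodule.coe_smul, Finset.sum_apply, Pi.smul_apply,
      smul_eq_mul, ← hC]
    have h1 := hc i
    have h2 : ∀ z : GE 𝒰 k, geMap 𝒰 (algebraMap k k) z = z := by
      intro z
      obtain ⟨z', rfl⟩ := ge_surj 𝒰 k z
      rfl
    simp only [h2] at h1
    exact h1
  have e2 : ∀ᶠ x in (𝒰 : Filter ι), ∀ s, ∀ e : Fin (finrank (GE 𝒰 k) R) → Cc,
      eval (Sum.elim (fun i => ∑ j, algebraMap k Cc (β x i j) * l j +
        ∑ b, e b * algebraMap k Cc (C b i x)) (fun a => algebraMap k Cc (t x a))) (F s) = 0 := by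
    rw [eventually_all]
    intro s
    by_contra hcon
    rw [← Ultrafilter.eventually_not] at hcon
    have h1 : ∀ x, ∃ e : Fin (finrank (GE 𝒰 k) R) → Cc,
        (¬ ∀ e : Fin (finrank (GE 𝒰 k) R) → Cc,
          eval (Sum.elim (fun i => ∑ j, algebraMap k Cc (β x i j) * l j +
            ∑ b, e b * algebraMap k Cc (C b i x)) (fun a => algebraMap k Cc (t x a))) (F s) = 0) →
        eval (Sum.elim (fun i => ∑ j, algebraMap k Cc (β x i j) * l j +
          ∑ b, e b * algebraMap k Cc (C b i x)) (fun a => algebraMap k Cc (t x a))) (F s) ≠ 0 := by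
      intro x
      by_cases hx : ∀ e : Fin (finrank (GE 𝒰 k) R) → Cc,
          eval (Sum.elim (fun i => ∑ j, algebraMap k Cc (β x i j) * l j +
            ∑ b, e b * algebraMap k Cc (C b i x)) (fun a => algebraMap k Cc (t x a))) (F s) = 0
      · exact ⟨0, fun h => absurd hx h⟩
      · obtain ⟨e, he⟩ := not_forall.1 hx
        exact ⟨e, fun _ => he⟩
    choose e he using h1
    have h2 := hR2 _ ⟨s, rfl⟩ (∑ b, ge 𝒰 Cc (fun x => e x b) •
      fun i => algebraMap (GE 𝒰 k) (GE 𝒰 Cc) ((cB b : Fin m → GE 𝒰 k) i))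
      (Submodule.sum_mem _ fun b _ => Submodule.smul_mem _ _ (Submodule.subset_span
        ⟨_, (cB b).2, rfl⟩))
    have h3 : (fun i => ∑ j, algebraMap (GE 𝒰 k) (GE 𝒰 Cc) (ge 𝒰 k (fun x => β x i j)) *
        ge 𝒰 Cc (fun _ => l j) + (∑ b, ge 𝒰 Cc (fun x => e x b) •
      fun i => algebraMap (GE 𝒰 k) (GE 𝒰 Cc) ((cB b : Fin m → GE 𝒰 k) i)) i) =
        fun i => ge 𝒰 Cc (fun x => ∑ j, algebraMap k Cc (β x i j) * l j +
          ∑ b, e x b * algebraMap k Cc (C b i x)) := by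
      funext i
      rw [hy, Finset.sum_apply]
      have h4 : ∀ b, (ge 𝒰 Cc (fun x => e x b) • fun i => algebraMap (GE 𝒰 k) (GE 𝒰 Cc)
          ((cB b : Fin m → GE 𝒰 k) i)) i = ge 𝒰 Cc (fun x => e x b * algebraMap k Cc (C b i x)) := by
        intro b
        rw [Pi.smul_apply, smul_eq_mul, ← hC]
        change ge 𝒰 Cc _ * geMap 𝒰 (algebraMap k Cc) _ = _
        rw [geMap_ge, ← map_mul]
        rfl
      rw [Finset.sum_congr rfl fun b _ => h4 b, ← map_sum, ← map_add]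
      congr 1
      funext x
      rw [Pi.add_apply, Finset.sum_apply]
    rw [h3, polyE_eval, ge_eq_zero] at h2
    obtain ⟨x, hx1, hx2⟩ := (hcon.and h2).exists
    exact he x hx1 hx2
  refine (e1.and e2).mono fun x hx => ?_
  have hlix : LinearIndependent k (fun b i => C b i x) := by
    rw [Fintype.linearIndependent_iff]
    intro c hc b
    refine congrFun (hx.1 c fun i => ?_) b
    have h1 := congrFun hc i
    rw [Finset.sum_apply, Pi.zero_apply] at h1
    exact h1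
  refine ⟨Submodule.span k (Set.range fun b i => C b i x), ?_, ?_⟩
  · rw [finrank_span_eq_card hlix, Fintype.card_fin]
  · intro s c hc
    obtain ⟨e, he⟩ := RE_span _ hc
    have h1 := hx.2 s e
    simp only [← he] at h1
    exact h1


/-- **The theorem in coordinates.** -/
theorem fam_coord2 [CharZero k] [CharZero Cc] {Lt : Submodule k Cc} (hL : Hyp Lt)
    (hw : Wts' k Cc) {m N q τ r : ℕ} (l : Fin N → Cc) (hl : ∀ j, l j ∈ Lt)
    (hli : LinearIndependent k l) (F : Fin r → MvPolynomial (Fin m ⊕ Fin τ) Cc)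
    (hq : τ + m * (m - 1) < q)
    (φ : Fin q → (((Fin m × Fin N) ⊕ Fin τ → k) →ₗ[k] k)) :
    ∃ P : MvPolynomial (Fin q) k, P ≠ 0 ∧ ∀ (b : Fin m → Fin N → k) (t : Fin τ → k),
      (∀ s, eval (Sum.elim (fun i => ∑ j, algebraMap k Cc (b i j) * l j)
        (fun a => algebraMap k Cc (t a))) (F s) = 0) →
      ¬ Big k F 0 (fun i => ∑ j, algebraMap k Cc (b i j) * l j) t →
      eval (fun i => φ i (Sum.elim (fun p => b p.1 p.2) t)) P = 0 := by
  classical
  by_contra hcon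
  push Not at hcon
  let ι := {x : (Fin m → Fin N → k) × (Fin τ → k) //
    (∀ s, eval (Sum.elim (fun i => ∑ j, algebraMap k Cc (x.1 i j) * l j)
        (fun a => algebraMap k Cc (x.2 a))) (F s) = 0) ∧
      ¬ Big k F 0 (fun i => ∑ j, algebraMap k Cc (x.1 i j) * l j) x.2}
  obtain ⟨𝒰, h𝒰⟩ := Pool.Agent.Y787.FE.exists_ultra' (K := k) (ι := ι) (n := q)
    (fun x i => φ i (Sum.elim (fun p => x.1.1 p.1 p.2) x.1.2)) (by
      intro P hP
      obtain ⟨b, t, h1, h2, h3⟩ := hcon P hP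
      exact ⟨⟨(b, t), h1, h2⟩, h3⟩)
  obtain ⟨ρ', h1, h2⟩ := germ_main2 (ι := ι) 𝒰 hL hw l hl hli (fun x => x.1.1) (fun x => x.1.2) F
    (fun x s => x.2.1 s) φ h𝒰
  obtain ⟨x, R, hR1, hR2⟩ := h2.exists
  have h3 : 0 < ρ' := by
    by_contra h4
    obtain rfl : ρ' = 0 := by omega
    rw [zero_mul, zero_add, Nat.sub_zero] at h1
    omega
  exact x.2.2 ⟨R, by omega, hR2⟩

end Pool.Agent.Helper71.QR
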