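import Mathlib
import Pool.Agent.Helper71.SFE.Gen
import Pool.Agent.Helper71.QR.DimZ

/-!
# The dimension of the set of exceptional tuples, modulo given elements
-/

set_option autoImplicit false

namespace Pool.Agent.Helper71.QR

open Finset Module Filter
open Pool.Agent.W254.PA (Hyp)
open Pool.Agent.Y787.AS (GE ge ge_eq ge_eq_zero Wts')
open Pool.Agent.Helper71.SFE (ultra_pigeon trdeg_bound algKG germ_indep germ_dep algField
  exists_minor exists_generic_mem)
open Pool.Agent.Helper71.FC (cmb cmb_cmb)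

variable {k E : Type} [Field k] [Field E] [Algebra k E]

/-- the tuple with coordinates `x` -/
def pt {n R : ℕ} (b : Fin R → E) (x : Fin n × Fin R → k) : Fin n → E :=
  fun i => ∑ s, algebraMap k E (x (i, s)) * b s

/-- there is a minimal relation between `z` and at most `M` combinations of the elements of `y` -/
def IsBadZ {n v : ℕ} (W : Submodule k E) (D M : ℕ) (z : Fin v → E) (y : Fin n → E) : Prop :=
  ∃ m ≤ M, 0 < m ∧ ∃ u : Fin m → Fin n → k, BadZ W D z m (cmb u y)

/-- normal form of a violation -/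
def VioZ {n R m v : ℕ} (W : Submodule k E) (D : ℕ) (z : Fin v → E) (b : Fin R → E)
    (x : Fin n × Fin R → k) (p : Fin m → Fin (v + 1) → k) (J : Fin m → Fin n)
    (u : Fin m → Fin n → k) : Prop :=
  BadZ W D z m (tr z (fun i => p i 0) (fun i a => p i a.succ)
    (fun i => ∑ s, algebraMap k E (∑ a, u i a * x (a, s)) * b s)) ∧
  ∀ i i', u i (J i') = if i = i' then 1 else 0

theorem cmb_pt {n R m : ℕ} (b : Fin R → E) (x : Fin n × Fin R → k) (u : Fin m → Fin n → k) :
    cmb u (pt b x) = fun i => ∑ s, algebraMap k E (∑ a, u i a * x (a, s)) * b s := by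
  funext i
  simp only [cmb, pt, Finset.mul_sum, map_sum, map_mul, Finset.sum_mul]
  rw [Finset.sum_comm]
  exact Finset.sum_congr rfl fun s _ => Finset.sum_congr rfl fun a _ => by ring

theorem exists_vioZ {n R M D v : ℕ} {W : Submodule k E} (z : Fin v → E) (b : Fin R → E)
    (x : Fin n × Fin R → k) (hx : IsBadZ W D M z (pt b x)) (p : Fin M → Fin (v + 1) → k) :
    ∃ (m : ℕ) (hm : m ≤ M) (J : Fin m → Fin n) (u : Fin m → Fin n → k),
      0 < m ∧ Function.Injective J ∧ VioZ W D z b x (fun i => p (Fin.castLE hm i)) J u := by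
  classical
  obtain ⟨m, hm, hm0, u₀, hB⟩ := hx
  have hli : ∀ w : Fin m → k, (∀ a, ∑ i, w i * u₀ i a = 0) → w = 0 := by
    intro w hw
    have h1 := (li_append.1 hB.1) 0 0 w (by
      simp only [map_zero, Pi.zero_apply, zero_mul, Finset.sum_const_zero, zero_add, cmb,
        Finset.mul_sum]
      rw [Finset.sum_comm]
      refine Finset.sum_eq_zero fun a _ => ?_
      have h4 : ∑ i, algebraMap k E (w i) * (algebraMap k E (u₀ i a) * pt b x a) =
          algebraMap k E (∑ i, w i * u₀ i a) * pt b x a := by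
        rw [map_sum, Finset.sum_mul]
        exact Finset.sum_congr rfl fun i _ => by rw [map_mul]; ring
      rw [h4, hw a, map_zero, zero_mul])
    exact h1.2.2
  obtain ⟨J, hJ, hdet⟩ := exists_minor (Matrix.of fun i a => u₀ i a) hli
  set C : Matrix (Fin m) (Fin m) k := Matrix.of fun i i' => u₀ i (J i') with hC
  have hCd : C.det ≠ 0 := hdet
  have hCu : IsUnit C.det := isUnit_iff_ne_zero.2 hCd
  have hCi : (C⁻¹).det ≠ 0 := by
    intro h0
    have h2 := congrArg Matrix.det (Matrix.mul_nonsing_inv _ hCu)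
    rw [Matrix.det_mul, h0, mul_zero, Matrix.det_one] at h2
    exact zero_ne_one h2
  refine ⟨m, hm, J, fun i a => ∑ l, C⁻¹ i l * u₀ l a, hm0, hJ, ?_, ?_⟩
  · have h1 := hB.act C⁻¹ hCi (fun i => p (Fin.castLE hm i) 0)
      (fun i a => p (Fin.castLE hm i) a.succ)
    rw [cmb_cmb, cmb_pt] at h1
    exact h1
  · intro i i'
    have h2 : C⁻¹ * C = 1 := Matrix.nonsing_inv_mul _ hCu
    have h3 := congrFun (congrFun h2 i) i'
    rw [Matrix.mul_apply, Matrix.one_apply] at h3
    exact h3

variable [CharZero k] [CharZero E]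

/-- **The dimension count.** -/
theorem exc_boundZ {Lt : Submodule k E} (hL : Hyp Lt) (hw : Wts' k E) {W : Submodule k E}
    [Module.Finite k W] {D M m d n R v q β : ℕ} (hm : m ≤ M) (hdm : d ≤ m)
    (hd : finrank k W * (D + (v + m)).choose (v + m) +
      ((m - d) * (v + 1 + R) + d * (d - 1)) ≤ β + 1)
    (z : Fin v → E) (b : Fin R → E)
    (hbL : ∀ s, (Fin.append (Fin.cons 1 z : Fin (v + 1) → E) b) s ∈ Lt)
    (hb : LinearIndependent k (Fin.append (Fin.cons 1 z : Fin (v + 1) → E) b))
    (J : Fin m → Fin n) (hJ : Function.Injective J)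
    (φ : Fin q → ((Fin n × Fin R → k) →ₗ[k] k))
    (x : ℕ → Fin n × Fin R → k) (p : ℕ → Fin M × Fin (v + 1) → k)
    (hz : ∀ Ψ : MvPolynomial (Fin q ⊕ (Fin M × Fin (v + 1))) k, Ψ ≠ 0 →
      ∀ᶠ j in Filter.atTop, MvPolynomial.eval (Sum.elim (fun i => φ i (x j)) (p j)) Ψ ≠ 0)
    (𝒰 : Ultrafilter ℕ) (h𝒰 : (𝒰 : Filter ℕ) ≤ atTop)
    (h : ∀ᶠ j in (𝒰 : Filter ℕ), ∃ u : Fin m → Fin n → k,
      VioZ W D z b (x j) (fun i a => p j (Fin.castLE hm i, a)) J u) :
    q + m * (v + 1) ≤ β + (m * (n - m) + (n - m) * R) := by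
  classical
  let algK := algKG k 𝒰
  -- the choice
  have hch : ∀ j, ∃ u : Fin m → Fin n → k, (∃ u : Fin m → Fin n → k,
      VioZ W D z b (x j) (fun i a => p j (Fin.castLE hm i, a)) J u) →
      VioZ W D z b (x j) (fun i a => p j (Fin.castLE hm i, a)) J u := by
    intro j
    by_cases hj : ∃ u : Fin m → Fin n → k,
      VioZ W D z b (x j) (fun i a => p j (Fin.castLE hm i, a)) J u
    · obtain ⟨u, hu⟩ := hj
      exact ⟨u, fun _ => hu⟩
    · exact ⟨0, fun h => absurd h hj⟩
  choose u hu using hch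
  have hV := h.mono hu
  -- the germs
  let fs : Fin q → GE 𝒰 k := fun i => ge 𝒰 k (fun j => φ i (x j))
  let vs : Fin m × Fin (v + 1) → GE 𝒰 k := fun i =>
    ge 𝒰 k (fun j => p j (Fin.castLE hm i.1, i.2))
  let xs : Fin n × Fin R → GE 𝒰 k := fun r => ge 𝒰 k (fun j => x j r)
  let us : Fin m × Fin n → GE 𝒰 k := fun r => ge 𝒰 k (fun j => u j r.1 r.2)
  let co : (Fin m × Fin R) ⊕ (Fin m × Fin (v + 1)) → ℕ → k := Sum.elim
    (fun r j => ∑ a, u j r.1 a * x j (a, r.2)) (fun i j => p j (Fin.castLE hm i.1, i.2))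
  let ys : (Fin m × Fin R) ⊕ (Fin m × Fin (v + 1)) → GE 𝒰 k := fun s => ge 𝒰 k (co s)
  have hys : ∀ i s, ys (Sum.inl (i, s)) = ∑ a, us (i, a) * xs (a, s) := by
    intro i s
    simp only [ys, us, xs, ← map_mul, ← map_sum]
    congr 1
    funext j
    rw [Finset.sum_apply]
    rfl
  have hus : ∀ i i', us (i, J i') = if i = i' then 1 else 0 := by
    intro i i'
    have h1 : us (i, J i') = ge 𝒰 k (fun _ => if i = i' then (1 : k) else 0) := by
      refine (ge_eq 𝒰 _ _).2 (hV.mono fun j hj => ?_)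
      exact hj.2 i i'
    rw [h1]
    by_cases hii : i = i'
    · simp only [hii, if_true]
      exact map_one (ge 𝒰 k)
    · simp only [hii, if_false]
      exact map_zero (ge 𝒰 k)
  -- independence
  have hind : AlgebraicIndependent k
      (fun i => ge 𝒰 k (fun j => Sum.elim (fun i => φ i (x j)) (p j) i)) :=
    germ_indep 𝒰 h𝒰 (fun j i => Sum.elim (fun i => φ i (x j)) (p j) i) hz
  have hind' : AlgebraicIndependent k (Sum.elim fs vs) := by
    have h1 := hind.comp (Sum.map id (Prod.map (Fin.castLE hm) id) :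
      Fin q ⊕ (Fin m × Fin (v + 1)) → Fin q ⊕ (Fin M × Fin (v + 1)))
      (Function.Injective.sumMap Function.injective_id
        (Function.Injective.prodMap (Fin.castLE_injective hm) Function.injective_id))
    convert h1 using 1
    funext r
    rcases r with r | r
    · rfl
    · rfl
  set Z : Set (GE 𝒰 k) := Set.range (Sum.elim fs vs) with hZdef
  have hZcard : Z.encard = (q + m * (v + 1) : ℕ) := by
    have h2 : Function.Injective (Sum.elim fs vs) := hind'.injective
    rw [hZdef, ← Set.image_univ, h2.encard_image, Set.encard_univ, ENat.card_eq_coe_fintype_card]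
    simp
  set S : Set (GE 𝒰 k) := Set.range ys with hSdef
  set Jc : Finset (Fin n) := (Finset.univ.image J)ᶜ with hJc
  have hJcc : Jc.card = n - m := by
    rw [hJc, Finset.card_compl, Finset.card_image_of_injective _ hJ, Finset.card_univ,
      Fintype.card_fin, Fintype.card_fin]
  set T : Set (GE 𝒰 k) :=
    us '' ((Finset.univ : Finset (Fin m)) ×ˢ Jc : Finset (Fin m × Fin n)) ∪
    xs '' (Jc ×ˢ (Finset.univ : Finset (Fin R)) : Finset (Fin n × Fin R)) with hTdef
  have hTcard : T.encard ≤ (m * (n - m) + (n - m) * R : ℕ) := by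
    refine (Set.encard_union_le _ _).trans ?_
    rw [Nat.cast_add]
    refine add_le_add ?_ ?_
    · refine (Set.encard_image_le _ _).trans (le_of_eq ?_)
      rw [Set.encard_coe_eq_coe_finsetCard, Finset.card_product, hJcc, Finset.card_univ,
        Fintype.card_fin]
    · refine (Set.encard_image_le _ _).trans (le_of_eq ?_)
      rw [Set.encard_coe_eq_coe_finsetCard, Finset.card_product, hJcc, Finset.card_univ,
        Fintype.card_fin]
  have hmain := trdeg_bound S T Z β (m * (n - m) + (n - m) * R) ?_ hTcard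
    hind'.to_subtype_range ?_
  · rw [hZcard] at hmain
    exact_mod_cast hmain
  · -- many elements are dependent
    intro s hs
    choose t ht using hs
    let enc : (Fin m × Fin R) ⊕ (Fin m × Fin (v + 1)) → Fin m × Fin (v + 1 + R) := Sum.elim
      (fun r => (r.1, Fin.natAdd (v + 1) r.2)) (fun i => (i.1, Fin.castAdd R i.2))
    obtain ⟨Ψ, hΨ, hΨ0⟩ := bad_dimZ hL hw hdm hd z
      (Fin.append (Fin.cons 1 z : Fin (v + 1) → E) b) hbL hb
      (fun i => LinearMap.proj (enc (t i)))
    have h5 : s = fun i => ge 𝒰 k (fun j => (fun i => co (t i) j) i) := by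
      funext i
      exact (ht i).symm
    rw [h5]
    refine germ_dep 𝒰 (fun j i => co (t i) j) Ψ hΨ (hV.mono fun j hj => ?_)
    have h6 := hΨ0 (fun i => Fin.append (fun a => p j (Fin.castLE hm i, a))
      (fun s => ∑ a, u j i a * x j (a, s))) (by
        have h7 := hj.1
        convert h7 using 1
        funext i
        rw [Fin.sum_univ_add, Fin.sum_univ_succ]
        simp only [Fin.append_left, Fin.append_right, Fin.cons_zero, Fin.cons_succ, mul_one, tr])
    rw [← h6]
    congr 1
    congr 1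
    funext i
    rcases hti : t i with r | r
    · simp [co, enc, LinearMap.proj_apply]
    · simp [co, enc, LinearMap.proj_apply]
  · -- everything is algebraic
    set R' := Algebra.adjoin k (S ∪ T) with hR'
    have hmemS : ∀ s, ys s ∈ algField R' := fun s =>
      isAlgebraic_algebraMap (⟨ys s, Algebra.subset_adjoin (Or.inl ⟨s, rfl⟩)⟩ : R')
    have hmemU : ∀ i, ∀ a ∈ Jc, us (i, a) ∈ algField R' := fun i a ha =>
      isAlgebraic_algebraMap (⟨us (i, a), Algebra.subset_adjoin (Or.inr (Or.inl ⟨(i, a), by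
        rw [Finset.mem_coe, Finset.mem_product]
        exact ⟨Finset.mem_univ _, ha⟩, rfl⟩))⟩ : R')
    have hmemX : ∀ a ∈ Jc, ∀ s, xs (a, s) ∈ algField R' := fun a ha s =>
      isAlgebraic_algebraMap (⟨xs (a, s), Algebra.subset_adjoin (Or.inr (Or.inr ⟨(a, s), by
        rw [Finset.mem_coe, Finset.mem_product]
        exact ⟨ha, Finset.mem_univ _⟩, rfl⟩))⟩ : R')
    have hmemX' : ∀ r, xs r ∈ algField R' := by
      rintro ⟨a, s⟩
      by_cases ha : a ∈ Jc
      · exact hmemX a ha s
      · obtain ⟨i, -, rfl⟩ := Finset.mem_image.1 (by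
          rw [hJc, Finset.mem_compl, not_not] at ha
          exact ha)
        have h1 : xs (J i, s) = ys (Sum.inl (i, s)) - ∑ a ∈ Jc, us (i, a) * xs (a, s) := by
          rw [eq_sub_iff_add_eq, hys,
            ← Finset.sum_add_sum_compl (Finset.univ.image J) (fun a => us (i, a) * xs (a, s)),
            Finset.sum_image (fun a _ b _ h => hJ h)]
          congr 1
          rw [Finset.sum_eq_single i]
          · rw [hus, if_pos rfl, one_mul]
          · intro a _ ha
            rw [hus, if_neg (Ne.symm ha), zero_mul]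
          · intro ha
            exact absurd (Finset.mem_univ _) ha
        rw [h1]
        exact (algField R').sub_mem (hmemS _) ((algField R').sum_mem fun a ha =>
          (algField R').mul_mem (hmemU _ _ ha) (hmemX _ ha _))
    rintro _ ⟨r, rfl⟩
    rcases r with i | i
    · change fs i ∈ algField R'
      have h6 : fs i = ∑ r, algebraMap k (GE 𝒰 k) (φ i (Pi.single r 1)) * xs r := by
        have h7 : ∀ r, algebraMap k (GE 𝒰 k) (φ i (Pi.single r 1)) =
            ge 𝒰 k (fun _ => φ i (Pi.single r 1)) := fun r => rfl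
        simp only [h7, fs, xs, ← map_mul, ← map_sum]
        congr 1
        funext j
        rw [Finset.sum_apply]
        have h8 : x j = ∑ r, x j r • (Pi.single r (1 : k) : Fin n × Fin R → k) := by
          funext r
          simp [Finset.sum_apply, Pi.single_apply]
        conv_lhs => rw [h8, map_sum]
        refine Finset.sum_congr rfl fun r _ => ?_
        rw [map_smul, smul_eq_mul, mul_comm]
        rfl
      rw [h6]
      refine (algField R').sum_mem fun r _ => (algField R').mul_mem ?_ (hmemX' r)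
      have h9 : algebraMap k (GE 𝒰 k) (φ i (Pi.single r 1)) =
          algebraMap R' (GE 𝒰 k) (algebraMap k R' (φ i (Pi.single r 1))) := rfl
      rw [h9]
      exact isAlgebraic_algebraMap _
    · exact hmemS (Sum.inr i)

/-- the numerical condition: for every `m ≤ M` there is `d ≤ m` such that the tuples with a minimal
relation between `z` and `m` combinations have dimension less than `q` -/
def NumZ (w D M n R v q : ℕ) : Prop :=
  ∀ m, 0 < m → m ≤ M → m ≤ n → ∃ d ≤ m,
    w * (D + (v + m)).choose (v + m) + ((m - d) * (v + 1 + R) + d * (d - 1)) +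
      (m * (n - m) + (n - m) * R) ≤ q + m * (v + 1)

/-- **The dimension of the exceptional set.** -/
theorem exc_dimZ [Countable k] {Lt : Submodule k E} (hL : Hyp Lt) (hw : Wts' k E)
    {W : Submodule k E} [Module.Finite k W] {D M n R v q : ℕ}
    (hnum : NumZ (finrank k W) D M n R v q)
    (z : Fin v → E) (b : Fin R → E)
    (hbL : ∀ s, (Fin.append (Fin.cons 1 z : Fin (v + 1) → E) b) s ∈ Lt)
    (hb : LinearIndependent k (Fin.append (Fin.cons 1 z : Fin (v + 1) → E) b))
    (φ : Fin q → ((Fin n × Fin R → k) →ₗ[k] k)) :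
    ∃ Ψ : MvPolynomial (Fin q) k, Ψ ≠ 0 ∧ ∀ x : Fin n × Fin R → k,
      IsBadZ W D M z (pt b x) → MvPolynomial.eval (fun i => φ i x) Ψ = 0 := by
  classical
  by_contra hcon
  push Not at hcon
  have hinf : Infinite k := CharZero.infinite k
  obtain ⟨x, p, hx, hgen⟩ := exists_generic_mem (κ := Fin M × Fin (v + 1))
    {x : Fin n × Fin R → k | IsBadZ W D M z (pt b x)}
    (fun x i => φ i x) (fun Ψ hΨ => by
      obtain ⟨x, hx, hx'⟩ := hcon Ψ hΨ
      exact ⟨x, hx, hx'⟩)
  set 𝒰 : Ultrafilter ℕ := Ultrafilter.of atTop with h𝒰def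
  have h𝒰 : (𝒰 : Filter ℕ) ≤ atTop := Ultrafilter.of_le _
  let TT : Type := (m : Fin (M + 1)) × (Fin (m : ℕ) → Fin n)
  have hex : ∀ᶠ j in (𝒰 : Filter ℕ), ∃ t : TT, 0 < (t.1 : ℕ) ∧ Function.Injective t.2 ∧
      ∃ u : Fin (t.1 : ℕ) → Fin n → k,
        VioZ W D z b (x j)
          (fun i a => p j (Fin.castLE (Nat.le_of_lt_succ t.1.2) i, a)) t.2 u := by
    refine Filter.Eventually.of_forall fun j => ?_
    obtain ⟨m, hm, J, u, h1, h2, h3⟩ := exists_vioZ z b (x j) (hx j) (fun i a => p j (i, a))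
    exact ⟨⟨⟨m, Nat.lt_succ_of_le hm⟩, J⟩, h1, h2, u, h3⟩
  obtain ⟨t, ht⟩ := ultra_pigeon 𝒰 _ hex
  obtain ⟨j, hj0, hjJ, -⟩ := ht.exists
  have hmn : (t.1 : ℕ) ≤ n := by
    have := Fintype.card_le_of_injective _ hjJ
    simpa using this
  have hmM : (t.1 : ℕ) ≤ M := Nat.le_of_lt_succ t.1.2
  obtain ⟨d, hdm, hd⟩ := hnum t.1 hj0 hmM hmn
  have hbound := exc_boundZ (q := q)
    (β := finrank k W * (D + (v + (t.1 : ℕ))).choose (v + (t.1 : ℕ)) +
      (((t.1 : ℕ) - d) * (v + 1 + R) + d * (d - 1)) - 1) hL hw hmM hdm (by omega)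
    z b hbL hb t.2 hjJ φ x p hgen 𝒰 h𝒰 (ht.mono fun j hj => hj.2.2)
  have hpos : 0 < finrank k W * (D + (v + (t.1 : ℕ))).choose (v + (t.1 : ℕ)) := by
    obtain ⟨j, -, -, u, hu⟩ := ht.exists
    obtain ⟨P, hP0, hP, -⟩ := hu.1.2.1
    refine Nat.mul_pos ?_ (Nat.choose_pos (Nat.le_add_left _ _))
    rw [Module.finrank_pos_iff]
    by_contra hn
    rw [not_nontrivial_iff_subsingleton] at hn
    apply hP0
    ext s
    have h1 := hP.1 s
    have h2 : (⟨P.coeff s, h1⟩ : W) = 0 := Subsingleton.elim _ _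
    simpa using congrArg Subtype.val h2
  omega

end Pool.Agent.Helper71.QR
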