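import Mathlib
import Pool.Agent.Helper71.QR.ExcZ

/-!
# The numerical conditions
-/

set_option autoImplicit false

namespace Pool.Agent.Helper71.QR

/-- the general condition -/
theorem num_gen {w D M n R v e : ℕ} (hnR : n ≤ R) (he : e ≤ n * R)
    (h : ∀ m, 0 < m → m ≤ M → m ≤ n →
      w * (D + (v + m)).choose (v + m) + e ≤ m * (R - n + v + 2) + 1) :
    NumZ w D M n R v (n * R + 1 - e) := by
  intro m hm0 hmM hmn
  refine ⟨m, le_rfl, ?_⟩
  have h1 := h m hm0 hmM hmn
  generalize w * (D + (v + m)).choose (v + m) = X at h1 ⊢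
  obtain ⟨a, rfl⟩ : ∃ a, n = m + a := ⟨n - m, by omega⟩
  obtain ⟨c, rfl⟩ : ∃ c, R = m + a + c := ⟨R - (m + a), by omega⟩
  obtain ⟨m', rfl⟩ : ∃ m', m = m' + 1 := ⟨m - 1, by omega⟩
  have e1 : m' + 1 + a - (m' + 1) = a := by omega
  have e2 : m' + 1 + a + c - (m' + 1 + a) = c := by omega
  have e3 : m' + 1 - 1 = m' := by omega
  have e4 : m' + 1 - (m' + 1) = 0 := by omega
  rw [e2] at h1
  rw [e1, e3, e4]
  obtain ⟨f, hf⟩ : ∃ f, (m' + 1 + a) * (m' + 1 + a + c) = e + f := ⟨_, (Nat.add_sub_cancel' he).symm⟩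
  have e5 : (m' + 1 + a) * (m' + 1 + a + c) + 1 - e = f + 1 := by omega
  rw [e5]
  nlinarith [h1, hf]

theorem choose_two' (N : ℕ) : 2 * (2 + N).choose N = (N + 2) * (N + 1) := by
  have h1 : (2 + N).choose N = (N + 2).choose 2 := by
    rw [add_comm, Nat.choose_symm_of_eq_add]
    omega
  rw [h1, Nat.choose_two_right]
  have h2 : 2 ∣ (N + 2) * (N + 2 - 1) := by
    have := Nat.even_mul_succ_self (N + 1)
    have h3 : (N + 2) * (N + 2 - 1) = (N + 1) * (N + 1 + 1) := by
      have : N + 2 - 1 = N + 1 := by omega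
      rw [this]; ring
    rw [h3]
    exact this.two_dvd
  have h3 : N + 2 - 1 = N + 1 := by omega
  rw [h3] at h2 ⊢
  exact Nat.mul_div_cancel' h2

/-- quadratic relations between few elements -/
theorem quad_small {v c m : ℕ} (hm0 : 0 < m) (hmc : m ≤ 2 * c) {e : ℕ}
    (he : (2 + v).choose v + e ≤ c + 1) :
    1 * (2 + (v + m)).choose (v + m) + e ≤ m * (c + v + 2) + 1 := by
  have h1 := choose_two' (v + m)
  have h2 := choose_two' v
  rw [one_mul]
  generalize (2 + (v + m)).choose (v + m) = X at h1 ⊢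
  generalize (2 + v).choose v = Y at h2 he
  obtain ⟨m', rfl⟩ : ∃ m', m = m' + 1 := ⟨m - 1, by omega⟩
  have h3 : m' * (m' + 1) ≤ m' * (2 * c) := Nat.mul_le_mul_left _ hmc
  nlinarith [h1, h2, h3, he]

/-- **Quadratic relations between at most `2 (R - n)` elements.** -/
theorem num_quad2 {n R v e : ℕ} (hnR : n ≤ R) (he : e ≤ n * R)
    (h : (2 + v).choose v + e ≤ R - n + 1) :
    NumZ 1 2 (2 * (R - n)) n R v (n * R + 1 - e) :=
  num_gen hnR he fun _ hm0 hmM _ => quad_small hm0 hmM h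

theorem arithZ (b s t c v f e X Y : ℤ) (ht : 0 ≤ t) (hv : 0 ≤ v)
    (h' : Y + e ≤ b * (v + s + t + c + 2) + 1)
    (hC : 2 * Y = (v + (b + s + t) + 2) * (v + (b + s + t) + 1))
    (hC' : 2 * X = (v + (b + s) + 2) * (v + (b + s) + 1))
    (hf : (b + s + t) * (b + s + t + c) = e + f) :
    X + (s * (v + 1 + (b + s + t + c)) + b * (b - 1)) + ((b + s) * t + t * (b + s + t + c)) ≤
      f + 1 + (b + s) * (v + 1) := by
  have h1 := mul_nonneg ht (show 0 ≤ 2 * v + t + 3 by omega)
  nlinarith [h1]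

/-- **All quadratic relations.** -/
theorem num_quad1 {n R v e : ℕ} (hnR : n ≤ R) (he : e ≤ n * R)
    (h : (2 + v).choose v + e ≤ R - n + 1) (he0 : 0 < e)
    (h' : (2 + (v + n)).choose (v + n) + e ≤ (v + R + 2) ^ 2 / 4 + 1) :
    NumZ 1 2 n n R v (n * R + 1 - e) := by
  obtain ⟨c, rfl⟩ : ∃ c, R = n + c := ⟨R - n, by omega⟩
  have e0 : n + c - n = c := by omega
  rw [e0] at h
  set a := v + (n + c) + 2 with ha
  -- the half
  have hC := choose_two' (v + n)
  have h4 : 4 * (a ^ 2 / 4) ≤ a ^ 2 := Nat.mul_div_le _ _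
  have hac : a ≤ 4 * c + 1 := by
    by_contra hcon
    push Not at hcon
    have h5 : 2 * ((v + n + 2) * (v + n + 1)) ≤ a ^ 2 := by
      have : (2 + (v + n)).choose (v + n) ≤ a ^ 2 / 4 := by omega
      nlinarith
    have h6 : 3 * a ≤ 4 * (v + n) + 6 := by omega
    have h7 : a = v + n + c + 2 := by omega
    nlinarith
  set b := a / 2 with hb
  have hb1 : 2 * b ≤ a := Nat.mul_div_le _ _
  have hb2 : a ≤ 2 * b + 1 := by omega
  have hb3 : a ^ 2 / 4 = b * (a - b) := by
    obtain ⟨r, hr⟩ : ∃ r, a = 2 * b + r := ⟨a - 2 * b, by omega⟩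
    have hr1 : r ≤ 1 := by omega
    have e1 : a - b = b + r := by omega
    rw [e1]
    interval_cases r
    · rw [hr]
      have : (2 * b + 0) ^ 2 = 4 * (b * (b + 0)) := by ring
      rw [this]
      exact Nat.mul_div_cancel_left _ (by norm_num)
    · rw [hr]
      have : (2 * b + 1) ^ 2 = 4 * (b * (b + 1)) + 1 := by ring
      rw [this]
      omega
  clear_value b
  clear_value a
  intro m hm0 hmM hmn
  rcases Nat.lt_or_ge b m with hbm | hbm
  · refine ⟨b, hbm.le, ?_⟩
    rw [hb3] at h'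
    have hC' := choose_two' (v + m)
    rw [one_mul]
    generalize (2 + (v + m)).choose (v + m) = X at hC' ⊢
    generalize (2 + (v + n)).choose (v + n) = Y at hC h'
    obtain ⟨s, rfl⟩ : ∃ s, m = b + s := ⟨m - b, by omega⟩
    obtain ⟨t, rfl⟩ : ∃ t, n = b + s + t := ⟨n - (b + s), by omega⟩
    have e1 : b + s - b = s := by omega
    have e2 : b + s + t - (b + s) = t := by omega
    rw [e1, e2]
    obtain ⟨f, hf⟩ : ∃ f, (b + s + t) * (b + s + t + c) = e + f := ⟨_, (Nat.add_sub_cancel' he).symm⟩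
    have e5 : (b + s + t) * (b + s + t + c) + 1 - e = f + 1 := by omega
    rw [e5]
    have e6 : a - b = v + s + t + c + 2 := by omega
    rw [e6] at h'
    obtain ⟨b', rfl⟩ | rfl : (∃ b', b = b' + 1) ∨ b = 0 := by
      rcases Nat.eq_zero_or_pos b with h0 | h0
      · exact Or.inr h0
      · exact Or.inl ⟨b - 1, by omega⟩
    · rw [Nat.add_sub_cancel]
      have h9 := arithZ (b' + 1) s t c v f e X Y (by positivity) (by positivity)
        (by exact_mod_cast h') (by exact_mod_cast hC) (by exact_mod_cast hC')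
        (by exact_mod_cast hf)
      rw [add_sub_cancel_right] at h9
      exact_mod_cast h9
    · have h9 := arithZ 0 s t c v f e X Y (by positivity) (by positivity)
        (by exact_mod_cast h') (by exact_mod_cast hC) (by exact_mod_cast hC')
        (by exact_mod_cast hf)
      rw [zero_mul] at h9 ⊢
      exact_mod_cast h9
  · have hm2c : m ≤ 2 * c := by omega
    have h5 := num_gen (w := 1) (D := 2) (M := m) (v := v) hnR he (fun m' hm'0 hm'M _ => by
      rw [e0]
      exact quad_small hm'0 (hm'M.trans hm2c) h)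
    exact h5 m hm0 le_rfl hmn

end Pool.Agent.Helper71.QR
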