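import Mathlib
import Pool.Graph.R_seed8.Y787.HS.SgF
import Pool.Agent.Helper71.QR.Num

/-!
# Generic tuples: hypersurface, counting, products
-/

set_option autoImplicit false

namespace Pool.Agent.Helper71.QR

open Finset Module MvPolynomial
open Pool.Agent.W254.PA (Hyp)
open Pool.Agent.Y787.AS (Wts')
open Pool.Agent.Helper71.FC (CW Rel cmb cmb_cmb)

variable {k E : Type} [Field k] [Field E] [Algebra k E]

/-- any at most `M` elements of the span of `1, z, y` which are independent modulo `1, z` satisfy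
together with `z` no relation -/
def NoRelZ {n v : ℕ} (W : Submodule k E) (D M : ℕ) (z : Fin v → E) (y : Fin n → E) : Prop :=
  ∀ m ≤ M, ∀ y' : Fin m → E,
    (∀ i, y' i ∈ Submodule.span k (insert 1 (Set.range z ∪ Set.range y))) →
    LinearIndependent k (Fin.cons 1 (Fin.append z y') : Fin (v + m + 1) → E) →
    ¬ Rel W D (Fin.append z y')

theorem mem_span_three {n v : ℕ} {z : Fin v → E} {y : Fin n → E} {x : E}
    (hx : x ∈ Submodule.span k (insert 1 (Set.range z ∪ Set.range y))) :
    ∃ (t : k) (c : Fin v → k) (u : Fin n → k), x = algebraMap k E t +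
      ∑ a, algebraMap k E (c a) * z a + ∑ j, algebraMap k E (u j) * y j := by
  obtain ⟨t, w, hw, rfl⟩ := Submodule.mem_span_insert.1 hx
  rw [Submodule.span_union, Submodule.mem_sup] at hw
  obtain ⟨w1, h1, w2, h2, rfl⟩ := hw
  obtain ⟨c, rfl⟩ := (Submodule.mem_span_range_iff_exists_fun k).1 h1
  obtain ⟨u, rfl⟩ := (Submodule.mem_span_range_iff_exists_fun k).1 h2
  refine ⟨t, c, u, ?_⟩
  simp only [Algebra.smul_def, mul_one]
  ring

omit [Field E] in
theorem append_zero {v : ℕ} (z : Fin v → E) (y : Fin 0 → E) :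
    (Fin.append z y : Fin (v + 0) → E) = z := by
  funext i
  refine Fin.addCases (m := v) (n := 0) (fun a => ?_) (fun a => a.elim0) i
  rw [Fin.append_left]
  rfl

/-- without minimal relations there are no relations -/
theorem noRelZ_of {n v D M : ℕ} {W : Submodule k E} {z : Fin v → E} {y : Fin n → E}
    (hz : ¬ Rel W D z) (h : ¬ IsBadZ W D M z y) : NoRelZ W D M z y := by
  intro m hm y' hy' hli hrel
  choose t c u hy using fun i => mem_span_three (hy' i)
  have hyt : y' = tr z t c (cmb u y) := by
    funext i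
    rw [hy i]
    rfl
  have hli' : LinearIndependent k (Fin.cons 1 (Fin.append z (cmb u y)) : Fin (v + m + 1) → E) := by
    have h1 := li_cmbZ (m' := m) hli (fun i j => (1 : Matrix (Fin m) (Fin m) k) i j)
      (Pool.Agent.Helper71.FC.li_rows _ (by simp)) (fun i => -t i) (fun i a => -c i a)
    rw [cmb_one] at h1
    convert h1 using 3
    rw [hyt]
    funext i
    simp only [tr, map_neg, neg_mul, Finset.sum_neg_distrib]
    ring
  rw [hyt] at hrel
  obtain ⟨m', hm', u', hbad⟩ := exists_badZ hli' (rel_tr hrel)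
  rcases Nat.eq_zero_or_pos m' with h0 | h0
  · subst h0
    apply hz
    have h1 := hbad.2.1
    rw [append_zero] at h1
    exact h1
  · rw [cmb_cmb] at hbad
    exact h ⟨m', hm'.trans hm, h0, _, hbad⟩

/-- the quadratic products of `1` and the elements -/
def prods {N : ℕ} (Y : Fin N → E) : {p : Fin (N + 1) × Fin (N + 1) // p.1 ≤ p.2} → E :=
  fun p => (Fin.cons 1 Y : Fin (N + 1) → E) p.1.1 * (Fin.cons 1 Y : Fin (N + 1) → E) p.1.2

/-- the exponents -/
noncomputable def ex {N : ℕ} : Fin (N + 1) → (Fin N →₀ ℕ) := Fin.cons 0 fun i => Finsupp.single i 1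

theorem ex_degree {N : ℕ} (a : Fin (N + 1)) : (ex a).degree ≤ 1 := by
  refine Fin.cases ?_ (fun i => ?_) a
  · simp [ex]
  · simp [ex]

theorem ex_inj {N : ℕ} {a b c d : Fin (N + 1)} (hab : a ≤ b) (hcd : c ≤ d)
    (h : ex a + ex b = ex c + ex d) : a = c ∧ b = d := by
  classical
  have hdeg : ∀ a : Fin (N + 1), (ex a).degree = if a = 0 then 0 else 1 := by
    intro a
    refine Fin.cases ?_ (fun i => ?_) a
    · simp [ex]
    · simp [ex, Fin.succ_ne_zero]
  have hval : ∀ (a : Fin (N + 1)) (i : Fin N), ex a i = if a = i.succ then 1 else 0 := by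
    intro a i
    refine Fin.cases ?_ (fun j => ?_) a
    · simp [ex, (Fin.succ_ne_zero i).symm]
    · simp only [ex, Fin.cons_succ, Finsupp.single_apply, Fin.succ_inj]
  have h1 := congrArg Finsupp.degree h
  rw [map_add, map_add, hdeg, hdeg, hdeg, hdeg] at h1
  have h2 : ∀ i : Fin N, (if a = i.succ then 1 else 0) + (if b = i.succ then 1 else 0) =
      (if c = i.succ then 1 else 0) + (if d = i.succ then 1 else 0) := by
    intro i
    have := DFunLike.congr_fun h i
    rw [Finsupp.add_apply, Finsupp.add_apply, hval, hval, hval, hval] at this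
    exact this
  -- the larger element
  have hbd : b = d := by
    rcases Fin.eq_zero_or_eq_succ b with hb | ⟨j, hb⟩
    · rcases Fin.eq_zero_or_eq_succ d with hd | ⟨l, hd⟩
      · rw [hb, hd]
      · have ha : a = 0 := Fin.le_zero_iff.1 (by rw [← hb]; exact hab)
        rw [ha, hb, hd] at h1
        simp [Fin.succ_ne_zero] at h1
    · rcases Fin.eq_zero_or_eq_succ d with hd | ⟨l, hd⟩
      · have hc : c = 0 := Fin.le_zero_iff.1 (by rw [← hd]; exact hcd)
        rw [hc, hb, hd] at h1
        simp [Fin.succ_ne_zero] at h1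
      · by_contra hne
        have h3 := h2 j
        have h4 := h2 l
        rw [hb, hd] at hne
        have hjl : l.succ ≠ j.succ := fun h => hne h.symm
        rw [hb, if_pos (rfl : j.succ = j.succ), hd, if_neg hjl] at h3
        rw [hb, hd, if_pos (rfl : l.succ = l.succ), if_neg (Ne.symm hjl)] at h4
        have hc : c = j.succ := by
          by_contra hc
          rw [if_neg hc] at h3
          omega
        have ha : a = l.succ := by
          by_contra ha
          rw [if_neg ha] at h4
          omega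
        apply hne
        have h5 : a ≤ j.succ := by rw [← hb]; exact hab
        have h6 : c ≤ l.succ := by rw [← hd]; exact hcd
        rw [ha] at h5
        rw [hc] at h6
        exact le_antisymm h6 h5
  refine ⟨?_, hbd⟩
  rw [hbd] at h h1
  have h3 : ex a = ex c := add_right_cancel h
  rcases Fin.eq_zero_or_eq_succ a with ha | ⟨j, ha⟩
  · rcases Fin.eq_zero_or_eq_succ c with hc | ⟨l, hc⟩
    · rw [ha, hc]
    · exfalso
      have := DFunLike.congr_fun h3 l
      rw [hval, hval, ha, hc, if_neg (Ne.symm (Fin.succ_ne_zero l)), if_pos rfl] at this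
      omega
  · have := DFunLike.congr_fun h3 j
    rw [hval, hval, ha, if_pos rfl] at this
    by_contra hne
    rw [ha] at hne
    rw [if_neg (Ne.symm hne)] at this
    omega

/-- without quadratic relations the products are linearly independent -/
theorem prods_li {N : ℕ} {Y : Fin N → E} (h : ¬ Rel (Submodule.span k {(1 : E)}) 2 Y) :
    LinearIndependent k (prods Y) := by
  classical
  rw [Fintype.linearIndependent_iff]
  intro g hg
  by_contra hcon
  push Not at hcon
  obtain ⟨p₀, hp₀⟩ := hcon
  let M : {p : Fin (N + 1) × Fin (N + 1) // p.1 ≤ p.2} → MvPolynomial (Fin N) E := fun p =>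
    monomial (ex p.1.1 + ex p.1.2) (algebraMap k E (g p))
  have hM : ∀ p s, coeff s (M p) = if ex p.1.1 + ex p.1.2 = s then algebraMap k E (g p) else 0 :=
    fun p s => coeff_monomial _ _ _
  have hcoef : ∀ s, ∃ r : k, coeff s (∑ p, M p) = algebraMap k E r := by
    intro s
    refine ⟨∑ p, if ex p.1.1 + ex p.1.2 = s then g p else 0, ?_⟩
    rw [coeff_sum, map_sum]
    refine Finset.sum_congr rfl fun p _ => ?_
    rw [hM]
    split_ifs
    · rfl
    · rw [map_zero]
  refine h ⟨∑ p, M p, ?_, ⟨fun s => ?_, ?_⟩, ?_⟩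
  · intro h0
    have h1 := congrArg (coeff (ex p₀.1.1 + ex p₀.1.2)) h0
    rw [coeff_sum, coeff_zero, Finset.sum_eq_single p₀] at h1
    · rw [hM, if_pos rfl] at h1
      exact hp₀ ((map_eq_zero _).1 h1)
    · intro p _ hp
      rw [hM, if_neg]
      intro h2
      apply hp
      obtain ⟨h3, h4⟩ := ex_inj p.2 p₀.2 h2
      exact Subtype.ext (Prod.ext h3 h4)
    · intro h; exact absurd (Finset.mem_univ _) h
  · obtain ⟨r, hr⟩ := hcoef s
    rw [hr, Submodule.mem_span_singleton]
    exact ⟨r, by rw [Algebra.smul_def, mul_one]⟩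
  · refine totalDegree_finsetSum_le fun p _ => ?_
    refine (totalDegree_monomial_le _ _).trans ?_
    have h1 : (ex p.1.1 + ex p.1.2).degree ≤ 2 := by
      rw [map_add]
      have := ex_degree p.1.1
      have := ex_degree p.1.2
      omega
    rw [Finsupp.degree_apply] at h1
    exact h1
  · rw [map_sum, ← hg]
    refine Finset.sum_congr rfl fun p _ => ?_
    have h1 : ∀ a : Fin (N + 1), eval Y (monomial (ex a) (1 : E)) =
        (Fin.cons 1 Y : Fin (N + 1) → E) a := by
      intro a
      refine Fin.cases ?_ (fun i => ?_) a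
      · simp [ex]
      · simp only [ex, Fin.cons_succ]
        exact eval_X (f := Y) i
    have h2 : M p = C (algebraMap k E (g p)) * (monomial (ex p.1.1) 1 * monomial (ex p.1.2) 1) := by
      simp only [M, monomial_mul, C_mul_monomial, mul_one]
    rw [h2, map_mul, eval_C, map_mul, h1, h1, Algebra.smul_def]
    rfl

variable [CharZero k] [CharZero E]

/-- **The exceptional hypersurface.** -/
theorem exists_hyp [Countable k] {Lt : Submodule k E} (hL : Hyp Lt) (hw : Wts' k E)
    {W : Submodule k E} [Module.Finite k W] {D M n R v : ℕ}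
    (hnum : NumZ (finrank k W) D M n R v (n * R)) (z : Fin v → E) (b : Fin R → E)
    (hbL : ∀ s, (Fin.append (Fin.cons 1 z : Fin (v + 1) → E) b) s ∈ Lt)
    (hb : LinearIndependent k (Fin.append (Fin.cons 1 z : Fin (v + 1) → E) b)) :
    ∃ Ψ : MvPolynomial (Fin n × Fin R) k, Ψ ≠ 0 ∧ ∀ x : Fin n × Fin R → k,
      MvPolynomial.eval x Ψ ≠ 0 → ¬ IsBadZ W D M z (pt b x) := by
  classical
  have hcard : Fintype.card (Fin n × Fin R) = n * R := by
    rw [Fintype.card_prod, Fintype.card_fin, Fintype.card_fin]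
  set e : Fin n × Fin R ≃ Fin (n * R) := Fintype.equivFinOfCardEq hcard with he
  obtain ⟨Ψ, hΨ, hΨ0⟩ := exc_dimZ hL hw hnum z b hbL hb
    (fun i => LinearMap.proj (R := k) (φ := fun _ : Fin n × Fin R => k) (e.symm i))
  refine ⟨MvPolynomial.rename e.symm Ψ, ?_, fun x hx hbad => ?_⟩
  · intro h0
    apply hΨ
    exact (MvPolynomial.rename_injective _ e.symm.injective) (by rw [h0, map_zero])
  · apply hx
    rw [MvPolynomial.eval_rename]
    exact hΨ0 x hbad

/-- **Counting.** -/
theorem count_exc [Countable k] {Lt : Submodule k E} (hL : Hyp Lt) (hw : Wts' k E)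
    {W : Submodule k E} [Module.Finite k W] {D M n R v e : ℕ} (he : e ≤ n * R)
    (hnum : NumZ (finrank k W) D M n R v (n * R + 1 - e)) (z : Fin v → E) (b : Fin R → E)
    (hbL : ∀ s, (Fin.append (Fin.cons 1 z : Fin (v + 1) → E) b) s ∈ Lt)
    (hb : LinearIndependent k (Fin.append (Fin.cons 1 z : Fin (v + 1) → E) b))
    (Q : (Fin n → Fin R → k) → Prop)
    (hQ : ∀ x, ¬ IsBadZ W D M z (pt b fun p => x p.1 p.2) → Q x) :
    ∃ κ : ℕ, ∀ H : ℕ, 1 ≤ H →
      Set.ncard {X : Fin n → Fin R → ℤ | (∀ i j, |X i j| ≤ H) ∧ ¬ Q (fun i j => (X i j : k))} ≤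
        κ * H ^ (n * R - e) := by
  classical
  have e1 : n * R + 1 - e = n * R - e + 1 := by omega
  rw [e1] at hnum
  obtain ⟨κ, hκ⟩ := Pool.Agent.Y787.HS.count_gen (K := k) (d := n * R - e)
    (σ := Fin n × Fin R) {x | IsBadZ W D M z (pt b x)}
    (fun φ => exc_dimZ hL hw hnum z b hbL hb φ)
  refine ⟨κ, fun H hH => ?_⟩
  have hfin : Set.Finite {X : Fin n → Fin R → ℤ | (∀ i j, |X i j| ≤ H) ∧
      ¬ Q (fun i j => (X i j : k))} := by
    refine Set.Finite.subset (Set.Finite.pi' (fun _ : Fin n => Set.Finite.pi'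
      (fun _ : Fin R => (Set.finite_Icc (-(H : ℤ)) H)))) ?_
    rintro X ⟨hX, -⟩ i j
    exact abs_le.1 (hX i j)
  rw [Set.ncard_eq_toFinset_card _ hfin]
  let g : (Fin n → Fin R → ℤ) → (Fin n × Fin R → ℤ) := fun X p => X p.1 p.2
  have hg : Function.Injective g := by
    intro A A' h
    funext i j
    exact congrFun h (i, j)
  rw [← Finset.card_image_of_injective _ hg]
  refine hκ H hH _ ?_
  intro a ha
  obtain ⟨A, hA, rfl⟩ := Finset.mem_image.1 ha
  rw [Set.Finite.mem_toFinset] at hA
  refine ⟨fun p => hA.1 _ _, ?_⟩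
  by_contra hgood
  exact hA.2 (hQ _ hgood)

/-- generic tuples are linearly independent -/
theorem exists_rank {n R v : ℕ} (hnR : n ≤ R) (z : Fin v → E) (b : Fin R → E)
    (hb : LinearIndependent k (Fin.append (Fin.cons 1 z : Fin (v + 1) → E) b)) :
    ∃ Δ : MvPolynomial (Fin n × Fin R) k, Δ ≠ 0 ∧ ∀ x : Fin n × Fin R → k,
      MvPolynomial.eval x Δ ≠ 0 →
        LinearIndependent k (Fin.cons 1 (Fin.append z (pt b x)) : Fin (v + n + 1) → E) := by
  classical
  set Δ : MvPolynomial (Fin n × Fin R) k := (Matrix.of fun i i' : Fin n =>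
    (MvPolynomial.X (i, Fin.castLE hnR i') : MvPolynomial (Fin n × Fin R) k)).det with hΔ
  have heval : ∀ x : Fin n × Fin R → k, MvPolynomial.eval x Δ =
      (Matrix.of fun i i' : Fin n => x (i, Fin.castLE hnR i')).det := by
    intro x
    rw [hΔ, RingHom.map_det]
    congr 1
    ext i j
    simp
  refine ⟨Δ, ?_, ?_⟩
  · intro h0
    have h1 := heval (fun p => if Fin.castLE hnR p.1 = p.2 then 1 else 0)
    rw [h0, map_zero] at h1
    have h2 : (Matrix.of fun i i' : Fin n =>
        (fun p : Fin n × Fin R => if Fin.castLE hnR p.1 = p.2 then (1 : k) else 0)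
          (i, Fin.castLE hnR i')) = 1 := by
      ext i j
      simp only [Matrix.of_apply, Matrix.one_apply]
      by_cases h : i = j
      · simp [h]
      · rw [if_neg h, if_neg fun h' => h (Fin.castLE_injective hnR h')]
    rw [h2, Matrix.det_one] at h1
    exact zero_ne_one h1
  · intro x hx
    rw [heval] at hx
    rw [li_append]
    intro t c g h0
    rw [Fintype.linearIndependent_iff] at hb
    have h1 := hb (Fin.append (Fin.cons t c) (fun s => ∑ i, g i * x (i, s))) (by
      rw [Fin.sum_univ_add, Fin.sum_univ_succ]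
      simp only [Fin.append_left, Fin.append_right, Fin.cons_zero, Fin.cons_succ,
        Algebra.smul_def, mul_one]
      rw [← h0]
      congr 1
      simp only [pt, map_sum, map_mul, Finset.mul_sum, Finset.sum_mul]
      rw [Finset.sum_comm]
      exact Finset.sum_congr rfl fun s _ => Finset.sum_congr rfl fun a _ => by ring)
    have h2 : ∀ s : Fin R, ∑ i, g i * x (i, s) = 0 := by
      intro s
      have := h1 (Fin.natAdd (v + 1) s)
      rwa [Fin.append_right] at this
    refine ⟨?_, ?_, ?_⟩
    · have := h1 (Fin.castAdd R 0)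
      rwa [Fin.append_left, Fin.cons_zero] at this
    · funext a
      have := h1 (Fin.castAdd R a.succ)
      rwa [Fin.append_left, Fin.cons_succ] at this
    · refine Matrix.eq_zero_of_vecMul_eq_zero hx ?_
      funext i'
      simp only [Matrix.vecMul, dotProduct, Matrix.of_apply, Pi.zero_apply]
      exact h2 _

end Pool.Agent.Helper71.QR
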