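import Mathlib
import Pool.Agent.Helper71.FC.Small
import Pool.Agent.Helper71.QR.Gen

/-!
# Assembly
-/

set_option autoImplicit false

namespace Pool.Agent.Helper71.QR

open Finset Module MvPolynomial
open Pool.Agent.W254.PA (Hyp)
open Pool.Agent.Y787.AS (Wts')
open Pool.Agent.Helper71.FC (CW Rel cmb cmb_cmb)

variable {k E : Type} [Field k] [Field E] [Algebra k E]

/-- no relations between the elements of `Y` -/
def FreeR (D : ℕ) (W : Submodule k E) {N : ℕ} (Y : Fin N → E) : Prop :=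
  ∀ P : MvPolynomial (Fin N) E, (∀ s, P.coeff s ∈ W) → P.totalDegree ≤ D → eval Y P = 0 → P = 0

theorem freeR_iff {D : ℕ} {W : Submodule k E} {N : ℕ} {Y : Fin N → E} :
    FreeR D W Y ↔ ¬ Rel W D Y := by
  constructor
  · rintro h ⟨P, hP0, hP, hPY⟩
    exact hP0 (h P hP.1 hP.2 hPY)
  · intro h P h1 h2 h3
    by_contra h4
    exact h ⟨P, h4, ⟨h1, h2⟩, h3⟩

theorem li_shift {v R : ℕ} {z : Fin v → E} {b : Fin R → E}
    (h : LinearIndependent k (Fin.cons 1 (Fin.append z b) : Fin (v + R + 1) → E)) :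
    LinearIndependent k (Fin.append (Fin.cons 1 z : Fin (v + 1) → E) b) := by
  rw [li_append] at h
  rw [Fintype.linearIndependent_iff]
  intro g hg
  rw [Fin.sum_univ_add, Fin.sum_univ_succ] at hg
  simp only [Fin.append_left, Fin.append_right, Fin.cons_zero, Fin.cons_succ,
    Algebra.smul_def, mul_one] at hg
  obtain ⟨h1, h2, h3⟩ := h _ _ _ hg
  intro i
  refine Fin.addCases (fun a => ?_) (fun s => ?_) i
  · refine Fin.cases ?_ (fun a => ?_) a
    · exact h1
    · exact congrFun h2 a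
  · exact congrFun h3 s

variable [CharZero k] [CharZero E] [Countable k]

/-- almost all tuples -/
def AA (e : ℕ) {n R : ℕ} (Q : (Fin n → Fin R → k) → Prop) : Prop :=
  (∃ Ψ : MvPolynomial (Fin n × Fin R) k, Ψ ≠ 0 ∧ ∀ x : Fin n → Fin R → k,
    eval (fun p => x p.1 p.2) Ψ ≠ 0 → Q x) ∧
  ∃ κ : ℕ, ∀ H : ℕ, 1 ≤ H →
    Set.ncard {X : Fin n → Fin R → ℤ | (∀ i j, |X i j| ≤ H) ∧ ¬ Q (fun i j => (X i j : k))} ≤
      κ * H ^ (n * R - e)

theorem aa_of {Lt : Submodule k E} (hL : Hyp Lt) (hw : Wts' k E)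
    {W : Submodule k E} [Module.Finite k W] {D M n R v e : ℕ} (he : e ≤ n * R)
    (hnum : NumZ (finrank k W) D M n R v (n * R + 1 - e)) (he1 : 1 ≤ e)
    (z : Fin v → E) (b : Fin R → E)
    (hbL : ∀ s, (Fin.append (Fin.cons 1 z : Fin (v + 1) → E) b) s ∈ Lt)
    (hb : LinearIndependent k (Fin.append (Fin.cons 1 z : Fin (v + 1) → E) b))
    (hz : ¬ Rel W D z) :
    AA e (fun x : Fin n → Fin R → k =>
      NoRelZ W D M z (fun i => ∑ j, algebraMap k E (x i j) * b j)) := by
  have hnum' : NumZ (finrank k W) D M n R v (n * R) := by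
    intro m h1 h2 h3
    obtain ⟨d, hd, h4⟩ := hnum m h1 h2 h3
    exact ⟨d, hd, h4.trans (by omega)⟩
  refine ⟨?_, ?_⟩
  · obtain ⟨Ψ, hΨ, h1⟩ := exists_hyp hL hw hnum' z b hbL hb
    refine ⟨Ψ, hΨ, fun x hx => ?_⟩
    have h2 : NoRelZ W D M z (pt b fun p => x p.1 p.2) :=
      noRelZ_of hz (h1 (fun p => x p.1 p.2) hx)
    exact h2
  · have h1 := count_exc hL hw he hnum z b hbL hb (fun x : Fin n → Fin R → k =>
      NoRelZ W D M z (fun i => ∑ j, algebraMap k E (x i j) * b j)) fun x hx => by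
        have h2 : NoRelZ W D M z (pt b fun p => x p.1 p.2) := noRelZ_of hz hx
        exact h2
    exact h1

omit [CharZero k] [CharZero E] [Countable k] in
theorem finrank_one : finrank k (Submodule.span k {(1 : E)}) = 1 :=
  finrank_span_singleton one_ne_zero

omit [CharZero E] [CharZero k] [Countable k] in
theorem prods_of {n v : ℕ} {z : Fin v → E} {y : Fin n → E}
    (h : NoRelZ (Submodule.span k {(1 : E)}) 2 n z y)
    (hli : LinearIndependent k (Fin.cons 1 (Fin.append z y) : Fin (v + n + 1) → E)) :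
    LinearIndependent k (prods (Fin.append z y)) := by
  refine prods_li (h n le_rfl y (fun i => ?_) hli)
  exact Submodule.subset_span (Or.inr (Or.inr ⟨i, rfl⟩))

omit [Countable k] in
/-- an integral point outside a hypersurface -/
theorem exists_int {ι : Type} [Finite ι] (Ψ : MvPolynomial ι k) (hΨ : Ψ ≠ 0) :
    ∃ X : ι → ℤ, eval (fun i => (X i : k)) Ψ ≠ 0 := by
  by_contra hcon
  push Not at hcon
  apply hΨ
  refine MvPolynomial.funext_set (fun _ : ι => Set.range (fun q : ℤ => (q : k)))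
    (fun _ => Set.infinite_range_of_injective Int.cast_injective) fun x hx => ?_
  choose y hy using fun i => hx i (Set.mem_univ i)
  have h2 : x = fun i => (y i : k) := funext fun i => (hy i).symm
  rw [h2, hcon y, map_zero]

end Pool.Agent.Helper71.QR
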